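import Mathlib

/-!
# Unitary Cayley graphs whose total domination number is at most `g(n) - 2`

For every `t` we build a squarefree `n = 2 * 15 * ∏ q_j` with `8 t + 3` large primes `q_j` such that
the unitary Cayley graph of `ZMod n` has a total dominating set with at most `30 t + 16` elements,
while there are `30 t + 17` consecutive integers none of which is coprime to `n`.
-/

set_option autoImplicit false

open Finset

namespace Pool.Agent.Q262.Jac

/-- The unitary Cayley graph of `ZMod n`: distinct residues are adjacent exactly when their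
difference is a unit. -/
def unitaryCayley (n : ℕ) : SimpleGraph (ZMod n) where
  Adj x y := x ≠ y ∧ IsUnit (x - y)
  symm := ⟨by
    rintro x y ⟨h1, h2⟩
    refine ⟨h1.symm, ?_⟩
    have : y - x = -(x - y) := by ring
    rw [this]
    exact h2.neg⟩
  loopless := ⟨fun x h => h.1 rfl⟩

/-- `D` is a total dominating set: every vertex has a neighbour in `D`. -/
def IsTotalDominating {V : Type*} (G : SimpleGraph V) (D : Finset V) : Prop :=
  ∀ v, ∃ d ∈ D, G.Adj v d

/-- `D` is a dominating set: every vertex lies in `D` or has a neighbour in `D`. -/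
def IsDominating {V : Type*} (G : SimpleGraph V) (D : Finset V) : Prop :=
  ∀ v, v ∈ D ∨ ∃ d ∈ D, G.Adj v d

/-- The total domination number. -/
noncomputable def totalDomNumber {V : Type*} (G : SimpleGraph V) : ℕ :=
  sInf {k | ∃ D : Finset V, IsTotalDominating G D ∧ D.card = k}

/-- The domination number. -/
noncomputable def domNumber {V : Type*} (G : SimpleGraph V) : ℕ :=
  sInf {k | ∃ D : Finset V, IsDominating G D ∧ D.card = k}

/-- Jacobsthal's function: the least positive `m` such that among any `m` consecutive integers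
`a, a + 1, …, a + m - 1` at least one is coprime to `n`. -/
noncomputable def jacobsthal (n : ℕ) : ℕ :=
  sInf {m | 0 < m ∧ ∀ a : ℤ, ∃ i : ℕ, i < m ∧ Int.gcd (a + i) n = 1}

/-! ### The set `D0` of `15 t + 8` integers -/

/-- The extra block. -/
def blk : Finset ℕ := {0, 1, 2, 3, 4, 5, 8, 12}

/-- The set of `15 t + 8` integers. -/
def D0 (t : ℕ) : Finset ℕ := range (15 * t) ∪ blk.image (fun r => 15 * t + r)

lemma disj0 (t : ℕ) : Disjoint (range (15 * t)) (blk.image (fun r => 15 * t + r)) := by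
  rw [Finset.disjoint_left]
  intro a ha hb
  rw [mem_range] at ha
  rw [mem_image] at hb
  obtain ⟨r, _, rfl⟩ := hb
  omega

lemma inj0 (t : ℕ) : Function.Injective (fun r => 15 * t + r) := by
  intro a b h
  simpa using h

lemma card_D0 (t : ℕ) : (D0 t).card = 15 * t + 8 := by
  unfold D0
  rw [card_union_of_disjoint (disj0 t), card_range, card_image_of_injective _ (inj0 t)]
  rfl

lemma lt_D0 {t d : ℕ} (h : d ∈ D0 t) : d < 15 * t + 13 := by
  unfold D0 at h
  rw [mem_union, mem_range, mem_image] at h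
  rcases h with h | ⟨r, hr, rfl⟩
  · omega
  · have : r < 13 := by
      revert r; unfold blk; decide
    omega

/-- Being coprime to `15`. -/
def Good (x : ℤ) (d : ℕ) : Prop := Int.gcd (x - d) 15 = 1

instance (x : ℤ) : DecidablePred (Good x) := fun d => inferInstanceAs (Decidable (_ = _))

lemma good_shift (x : ℤ) (t r : ℕ) : Good x (15 * t + r) ↔ Good (x % 15) r := by
  unfold Good
  have h1 : x - ((15 * t + r : ℕ) : ℤ) = (x % 15 - r) + 15 * (x / 15 - t) := by
    have := Int.emod_add_mul_ediv x 15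
    push_cast
    linarith
  rw [h1, Int.gcd_add_mul_left_left]

lemma sum_block : ∀ y ∈ Finset.range 15,
    (∑ r ∈ range 15, if Good ((y : ℕ) : ℤ) r then 1 else 0) = 8 := by
  decide

lemma sum_blk : ∀ y ∈ Finset.range 15,
    4 ≤ (blk.filter (Good ((y : ℕ) : ℤ))).card := by
  decide

lemma emod_mem (x : ℤ) : ∃ y ∈ Finset.range 15, x % 15 = ((y : ℕ) : ℤ) := by
  refine ⟨(x % 15).toNat, ?_, ?_⟩
  · rw [mem_range]
    have := Int.emod_lt_of_pos x (show (0 : ℤ) < 15 by norm_num)
    have := Int.emod_nonneg x (show (15 : ℤ) ≠ 0 by norm_num)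
    omega
  · have := Int.emod_nonneg x (show (15 : ℤ) ≠ 0 by norm_num)
    omega

lemma sum_range_good (x : ℤ) (t : ℕ) :
    (∑ d ∈ range (15 * t), if Good x d then 1 else 0) = 8 * t := by
  induction t with
  | zero => simp
  | succ t ih =>
    have : 15 * (t + 1) = 15 * t + 15 := by ring
    rw [this, Finset.sum_range_add, ih]
    obtain ⟨y, hy, hxy⟩ := emod_mem x
    have h2 : (∑ r ∈ range 15, if Good x (15 * t + r) then 1 else 0) =
        ∑ r ∈ range 15, if Good ((y : ℕ) : ℤ) r then 1 else 0 := by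
      apply Finset.sum_congr rfl
      intro r _
      simp only [good_shift, hxy]
    rw [h2, sum_block y hy]
    ring

lemma card_good (x : ℤ) (t : ℕ) : 8 * t + 4 ≤ ((D0 t).filter (Good x)).card := by
  unfold D0
  rw [filter_union, card_union_of_disjoint
    (Finset.disjoint_filter_filter (disj0 t)), Finset.card_filter, sum_range_good, filter_image,
    card_image_of_injective _ (inj0 t)]
  obtain ⟨y, hy, hxy⟩ := emod_mem x
  have h2 : (blk.filter (fun r => Good x (15 * t + r))) = blk.filter (Good ((y : ℕ) : ℤ)) := by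
    apply Finset.filter_congr
    intro r _
    rw [good_shift, hxy]
  rw [h2]
  have := sum_blk y hy
  omega

/-! ### The primes -/

/-- Large primes, one for each index. -/
noncomputable def q (t j : ℕ) : ℕ := Nat.nth Nat.Prime (15 * t + 13 + j)

lemma q_prime (t j : ℕ) : (q t j).Prime := Nat.prime_nth_prime _

lemma q_inj (t : ℕ) : Function.Injective (q t) := by
  intro a b h
  have := (Nat.nth_strictMono Nat.infinite_setOfPred_prime).injective h
  omega

lemma q_ge (t j : ℕ) : 15 * t + 13 ≤ q t j := by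
  have h : 15 * t + 13 + j ≤ Nat.nth Nat.Prime (15 * t + 13 + j) :=
    (Nat.nth_strictMono Nat.infinite_setOfPred_prime).le_apply
  unfold q
  omega

/-- The indices of the elements of the run that are coprime to `15`. -/
def J (t : ℕ) : Finset ℕ := (range (15 * t + 8)).filter (fun j => Int.gcd (3 + j) 15 = 1)

lemma card_J (t : ℕ) : (J t).card = 8 * t + 3 := by
  unfold J
  rw [Finset.card_filter, Finset.sum_range_add]
  have h1 : ∀ d : ℕ, (Int.gcd (3 + (d : ℤ)) 15 = 1) ↔ Good (-3) d := by
    intro d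
    unfold Good
    have : (-3 - (d : ℤ)) = -(3 + (d : ℤ)) := by ring
    rw [this, Int.neg_gcd]
  simp only [h1]
  rw [sum_range_good]
  have h2 : (∑ x ∈ range 8, if Good (-3) (15 * t + x) then 1 else 0) =
      ∑ r ∈ range 8, if Good (12 : ℤ) r then 1 else 0 := by
    apply Finset.sum_congr rfl
    intro r _
    have : (-3 : ℤ) % 15 = 12 := by norm_num
    simp only [good_shift, this]
  rw [h2]
  have h3 : (∑ r ∈ range 8, if Good (12 : ℤ) r then 1 else 0) = 3 := by decide
  rw [h3]

/-- The odd modulus. -/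
noncomputable def nOdd (t : ℕ) : ℕ := 15 * ∏ j ∈ J t, q t j

/-- The modulus. -/
noncomputable def nn (t : ℕ) : ℕ := 2 * nOdd t

lemma nOdd_odd (t : ℕ) : Odd (nOdd t) := by
  unfold nOdd
  refine Odd.mul (by decide) (Finset.prod_induction _ Odd (fun a b => Odd.mul) odd_one ?_)
  intro j _
  have h1 := q_prime t j
  have h2 := q_ge t j
  exact h1.odd_of_ne_two (by omega)

lemma nOdd_pos (t : ℕ) : 0 < nOdd t := (nOdd_odd t).pos

/-- Every integer `x` has some `d ∈ D0 t` with `x - d` coprime to the odd modulus. -/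
lemma exists_coprime (x : ℤ) (t : ℕ) : ∃ d ∈ D0 t, IsCoprime ((nOdd t : ℕ) : ℤ) (x - d) := by
  by_contra hcon
  push Not at hcon
  set S := (D0 t).filter (Good x) with hS
  have h1 : ∀ d ∈ S, ∃ j ∈ J t, ((q t j : ℕ) : ℤ) ∣ x - d := by
    intro d hd
    rw [hS, mem_filter] at hd
    by_contra hno
    push Not at hno
    apply hcon d hd.1
    unfold nOdd
    push_cast
    apply IsCoprime.mul_left
    · rw [Int.isCoprime_iff_gcd_eq_one, Int.gcd_comm]
      exact hd.2
    · apply IsCoprime.prod_left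
      intro j hj
      exact ((Nat.prime_iff_prime_int.mp (q_prime t j)).coprime_iff_not_dvd).mpr (hno j hj)
  choose! φ hφ using h1
  have hcard : S.card ≤ (J t).card := by
    apply Finset.card_le_card_of_injOn φ (fun d hd => (hφ d hd).1)
    intro a ha b hb hab
    have h2 := (hφ a ha).2
    have h3 := (hφ b hb).2
    rw [← hab] at h3
    have h4 : ((q t (φ a) : ℕ) : ℤ) ∣ (b : ℤ) - a := by
      have := dvd_sub h2 h3
      have e : x - a - (x - b) = (b : ℤ) - a := by ring
      rwa [e] at this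
    have ha' := lt_D0 (Finset.mem_filter.mp (Finset.mem_coe.mp ha)).1
    have hb' := lt_D0 (Finset.mem_filter.mp (Finset.mem_coe.mp hb)).1
    have hq := q_ge t (φ a)
    have h5 : (b : ℤ) - a = 0 := by
      apply Int.eq_zero_of_abs_lt_dvd h4
      rw [abs_lt]
      constructor <;> push_cast <;> omega
    omega
  have := card_good x t
  rw [← hS] at this
  rw [card_J] at hcard
  omega

/-- A long run of integers that are not coprime to the odd modulus. -/
lemma exists_run (t : ℕ) : ∃ x : ℤ, ∀ j < 15 * t + 8, ¬ IsCoprime ((nOdd t : ℕ) : ℤ) (x + (j : ℕ)) := by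
  classical
  -- residues: index `0` stands for the modulus `15`, index `j + 1` for `q t j`
  let s : ℕ → ℕ := fun i => if i = 0 then 15 else q t (i - 1)
  let a : ℕ → ℕ := fun i => if i = 0 then 3 else (q t (i - 1)) * (i - 1) - (i - 1)
  let T : Finset ℕ := insert 0 ((J t).image (· + 1))
  have hs : ∀ i ∈ T, s i ≠ 0 := by
    intro i _
    simp only [s]
    split_ifs
    · norm_num
    · exact (q_prime t _).ne_zero
  have hpp : Set.Pairwise (T : Set ℕ) (Function.onFun Nat.Coprime s) := by
    intro i _ j _ hij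
    simp only [Function.onFun, s]
    have key : ∀ k, Nat.Coprime 15 (q t k) := by
      intro k
      rw [Nat.coprime_comm, (q_prime t k).coprime_iff_not_dvd]
      intro h
      have h1 := q_ge t k
      have h2 := Nat.le_of_dvd (by norm_num) h
      have h3 : q t k = 13 ∨ q t k = 14 ∨ q t k = 15 := by omega
      rcases h3 with h3 | h3 | h3
      · rw [h3] at h; norm_num at h
      · rw [h3] at h; norm_num at h
      · have := q_prime t k
        rw [h3] at this
        norm_num at this
    split_ifs with h1 h2 h2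
    · omega
    · exact key _
    · exact (key _).symm
    · rw [Nat.coprime_primes (q_prime t _) (q_prime t _)]
      intro h
      have := q_inj t h
      omega
  obtain ⟨k, hk⟩ := Nat.chineseRemainderOfFinset a s T hs hpp
  refine ⟨(k : ℤ), ?_⟩
  intro j hj hcop
  by_cases hJ : j ∈ J t
  · have h1 := hk (j + 1) (by simp only [T, mem_insert, mem_image]; right; exact ⟨j, hJ, rfl⟩)
    have h2 : k ≡ q t j * j - j [MOD q t j] := by
      simpa [a, s] using h1
    have h3 : k + j ≡ q t j * j - j + j [MOD q t j] := h2.add_right j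
    have h4 : q t j * j - j + j = q t j * j := by
      apply Nat.sub_add_cancel
      exact Nat.le_mul_of_pos_left _ (q_prime t j).pos
    rw [h4] at h3
    have h5 : q t j ∣ k + j := by
      rw [← Nat.modEq_zero_iff_dvd]
      exact h3.trans (by rw [Nat.modEq_zero_iff_dvd]; exact dvd_mul_right _ _)
    have h6 : q t j ∣ nOdd t := (Finset.dvd_prod_of_mem (q t) hJ).mul_left 15
    have h7 : ((q t j : ℕ) : ℤ) ∣ ((nOdd t : ℕ) : ℤ) := by exact_mod_cast h6
    have h8 : ((q t j : ℕ) : ℤ) ∣ (k : ℤ) + (j : ℕ) := by exact_mod_cast h5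
    have h9 := hcop.isUnit_of_dvd' h7 h8
    exact (Nat.prime_iff_prime_int.mp (q_prime t j)).not_isUnit h9
  · have h1 := hk 0 (by simp [T])
    have h2 : k ≡ 3 [MOD 15] := by simpa [a, s] using h1
    have h3 : Int.gcd (3 + (j : ℤ)) 15 ≠ 1 := by
      intro h
      exact hJ (by unfold J; rw [mem_filter, mem_range]; exact ⟨hj, h⟩)
    apply h3
    have h4 : ((15 : ℤ)) ∣ (3 : ℤ) - k := by
      have := (Nat.modEq_iff_dvd).mp h2
      exact_mod_cast this
    obtain ⟨c, hc⟩ := h4
    have h5 : (3 + (j : ℤ)) = (k + j) + 15 * c := by linarith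
    rw [h5, Int.gcd_add_mul_left_left, Int.gcd_comm, ← Int.isCoprime_iff_gcd_eq_one]
    have h6 : ((15 : ℤ)) ∣ ((nOdd t : ℕ) : ℤ) := by
      unfold nOdd; push_cast; exact dvd_mul_right _ _
    exact hcop.of_isCoprime_of_dvd_left h6

/-- A run of `30 t + 17` consecutive integers none of which is coprime to `nn t`. -/
lemma exists_run2 (t : ℕ) : ∃ y : ℤ, ∀ i < 30 * t + 17, Int.gcd (y + (i : ℕ)) ((nn t : ℕ) : ℤ) ≠ 1 := by
  obtain ⟨x, hx⟩ := exists_run t
  refine ⟨2 * x - 1 + nOdd t, ?_⟩
  intro i hi h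
  have hcop : IsCoprime (2 * x - 1 + nOdd t + (i : ℕ)) ((nn t : ℕ) : ℤ) :=
    Int.isCoprime_iff_gcd_eq_one.mpr h
  obtain ⟨c, hc⟩ := nOdd_odd t
  rcases Nat.even_or_odd' i with ⟨j, hj | hj⟩
  · -- even
    have h1 : (2 : ℤ) ∣ 2 * x - 1 + nOdd t + (i : ℕ) := by
      refine ⟨x + c + j, ?_⟩
      rw [hc, hj]; push_cast; ring
    have h2 : (2 : ℤ) ∣ ((nn t : ℕ) : ℤ) := by
      unfold nn; push_cast; exact dvd_mul_right _ _
    have h3 := hcop.isUnit_of_dvd' h1 h2
    exact Int.prime_two.not_isUnit h3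
  · apply hx j (by omega)
    have h1 : ((nOdd t : ℕ) : ℤ) ∣ ((nn t : ℕ) : ℤ) := by
      unfold nn; push_cast; exact dvd_mul_left _ _
    have h2 := (hcop.symm).of_isCoprime_of_dvd_left h1
    have h3 : 2 * x - 1 + nOdd t + (i : ℕ) = 2 * (x + (j : ℕ)) + ((nOdd t : ℕ) : ℤ) * 1 := by
      rw [hj]; push_cast; ring
    rw [h3] at h2
    have h4 := IsCoprime.of_add_mul_left_right h2
    exact h4.of_mul_right_right

/-- The dominating set. -/
noncomputable def DD (t : ℕ) : Finset (ZMod (nn t)) :=
  (D0 t).image (fun d => ((d : ℕ) : ZMod (nn t))) ∪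
    (D0 t).image (fun d => ((d + nOdd t : ℕ) : ZMod (nn t)))

lemma card_DD (t : ℕ) : (DD t).card ≤ 30 * t + 16 := by
  unfold DD
  refine (card_union_le _ _).trans ?_
  have h1 := (card_image_le (s := D0 t) (f := fun d => ((d : ℕ) : ZMod (nn t))))
  have h2 := (card_image_le (s := D0 t) (f := fun d => ((d + nOdd t : ℕ) : ZMod (nn t))))
  rw [card_D0] at h1 h2
  omega

lemma nn_gt (t : ℕ) : 1 < nn t := by
  have := nOdd_pos t
  unfold nn
  omega

lemma total_DD (t : ℕ) : IsTotalDominating (unitaryCayley (nn t)) (DD t) := by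
  have : Fact (1 < nn t) := ⟨nn_gt t⟩
  have : NeZero (nn t) := ⟨by have := nn_gt t; omega⟩
  intro v
  obtain ⟨d, hd, hcop⟩ := exists_coprime (v.val : ℤ) t
  obtain ⟨c, hc⟩ := nOdd_odd t
  -- choose the representative of the right parity
  have hunit : ∀ e : ℕ, IsCoprime ((nn t : ℕ) : ℤ) ((v.val : ℤ) - e) →
      (unitaryCayley (nn t)).Adj v ((e : ℕ) : ZMod (nn t)) := by
    intro e he
    have h1 : IsUnit ((((v.val : ℤ) - e : ℤ)) : ZMod (nn t)) :=
      (ZMod.coe_int_isUnit_iff_isCoprime _ _).mpr he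
    have h2 : ((((v.val : ℤ) - e : ℤ)) : ZMod (nn t)) = v - ((e : ℕ) : ZMod (nn t)) := by
      push_cast
      rw [ZMod.natCast_zmod_val]
    rw [h2] at h1
    refine ⟨?_, h1⟩
    intro h
    rw [← h, sub_self] at h1
    exact not_isUnit_zero h1
  have htwo : ∀ z : ℤ, IsCoprime ((nOdd t : ℕ) : ℤ) z → ¬ (2 : ℤ) ∣ z →
      IsCoprime ((nn t : ℕ) : ℤ) z := by
    intro z h1 h2
    unfold nn
    push_cast
    exact IsCoprime.mul_left ((Int.prime_two.coprime_iff_not_dvd).mpr h2) h1
  by_cases hpar : (2 : ℤ) ∣ (v.val : ℤ) - d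
  · refine ⟨((d + nOdd t : ℕ) : ZMod (nn t)), ?_, ?_⟩
    · unfold DD
      exact mem_union_right _ (mem_image_of_mem _ hd)
    · apply hunit
      apply htwo
      · have : ((v.val : ℤ) - ((d + nOdd t : ℕ) : ℤ)) =
            ((v.val : ℤ) - d) + ((nOdd t : ℕ) : ℤ) * (-1) := by push_cast; ring
        rw [this]
        exact hcop.add_mul_left_right (-1)
      · intro h
        have h3 : (2 : ℤ) ∣ ((nOdd t : ℕ) : ℤ) := by
          have := dvd_sub hpar h
          have e : ((v.val : ℤ) - d) - ((v.val : ℤ) - ((d + nOdd t : ℕ) : ℤ)) =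
            ((nOdd t : ℕ) : ℤ) := by push_cast; ring
          rwa [e] at this
        rw [hc] at h3
        push_cast at h3
        omega
  · refine ⟨((d : ℕ) : ZMod (nn t)), ?_, ?_⟩
    · unfold DD
      exact mem_union_left _ (mem_image_of_mem _ hd)
    · exact hunit d (htwo _ hcop hpar)

/-! ### The main statements -/

lemma totalDomNumber_le (t : ℕ) : totalDomNumber (unitaryCayley (nn t)) ≤ 30 * t + 16 :=
  (Nat.sInf_le (s := {k | ∃ D : Finset (ZMod (nn t)),
    IsTotalDominating (unitaryCayley (nn t)) D ∧ D.card = k})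
    ⟨DD t, total_DD t, rfl⟩).trans (card_DD t)

lemma domNumber_le (t : ℕ) : domNumber (unitaryCayley (nn t)) ≤ 30 * t + 16 :=
  (Nat.sInf_le (s := {k | ∃ D : Finset (ZMod (nn t)),
    IsDominating (unitaryCayley (nn t)) D ∧ D.card = k})
    ⟨DD t, fun v => Or.inr (total_DD t v), rfl⟩).trans (card_DD t)

lemma jacobsthal_nonempty {n : ℕ} (hn : 0 < n) :
    {m | 0 < m ∧ ∀ a : ℤ, ∃ i : ℕ, i < m ∧ Int.gcd (a + i) n = 1}.Nonempty := by
  refine ⟨n, hn, ?_⟩
  intro a
  refine ⟨((1 - a) % n).toNat, ?_, ?_⟩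
  · have h1 := Int.emod_lt_of_pos (1 - a) (show (0 : ℤ) < n by exact_mod_cast hn)
    have h2 := Int.emod_nonneg (1 - a) (show (n : ℤ) ≠ 0 by exact_mod_cast hn.ne')
    omega
  · have h2 := Int.emod_nonneg (1 - a) (show (n : ℤ) ≠ 0 by exact_mod_cast hn.ne')
    rw [Int.toNat_of_nonneg h2]
    have h3 : a + (1 - a) % n = 1 + n * (-((1 - a) / n)) := by
      have := Int.emod_add_mul_ediv (1 - a) n
      linarith
    rw [h3, Int.gcd_add_mul_left_left]
    simp

lemma jacobsthal_ge (t : ℕ) : 30 * t + 18 ≤ jacobsthal (nn t) := by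
  apply le_csInf (jacobsthal_nonempty (by have := nn_gt t; omega))
  rintro m ⟨_, hm⟩
  by_contra hlt
  push Not at hlt
  obtain ⟨y, hy⟩ := exists_run2 t
  obtain ⟨i, hi, h⟩ := hm y
  exact hy i (by omega) h

lemma primeFactors_ge (t : ℕ) : 8 * t + 3 ≤ (nn t).primeFactors.card := by
  rw [← card_J t, ← Finset.card_image_of_injective (J t) (q_inj t)]
  apply Finset.card_le_card
  intro p hp
  rw [mem_image] at hp
  obtain ⟨j, hj, rfl⟩ := hp
  rw [Nat.mem_primeFactors]
  refine ⟨q_prime t j, ?_, by have := nn_gt t; omega⟩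
  exact ((Finset.dvd_prod_of_mem (q t) hj).mul_left 15).mul_left 2

end Pool.Agent.Q262.Jac
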